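import Pool.Agent.H.MP_b48dd4_gt.D

set_option autoImplicit false

namespace Pool.Agent.Results.MP_b48dd4_gt.Gromov

open Classical in
/-- The imbalance vector at `v`: the sum of the unit vectors along the edges at `v`. -/
noncomputable def Imb (V : Finset ℂ) (G : SimpleGraph ℂ) (v : ℂ) : ℂ :=
  ∑ w ∈ V.filter (fun w => G.Adj v w), (w - v) / ((‖w - v‖ : ℝ) : ℂ)

open Classical in
/-- A geodesic net in the Euclidean plane `ℂ` with vertex set `V`; the edges are the straight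
segments joining adjacent vertices of `G`. -/
structure IsNet (V : Finset ℂ) (G : SimpleGraph ℂ) : Prop where
  supp : ∀ a b, G.Adj a b → a ∈ V ∧ b ∈ V
  meet : ∀ a b c d, G.Adj a b → G.Adj c d → ¬ ((a = c ∧ b = d) ∨ (a = d ∧ b = c)) →
    ∀ x ∈ segment ℝ a b ∩ segment ℝ c d, (x = a ∨ x = b) ∧ (x = c ∨ x = d)
  deg1 : ∀ v ∈ V, 1 ≤ (V.filter (fun w => G.Adj v w)).card
  deg3 : ∀ v ∈ V, Imb V G v = 0 → 3 ≤ (V.filter (fun w => G.Adj v w)).card

open Classical in
theorem result : ∃ F : ℕ → ℝ → ℕ, ∀ (n : ℕ) (I : ℝ) (V : Finset ℂ) (G : SimpleGraph ℂ),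
    IsNet V G → (V.filter (fun v => Imb V G v ≠ 0)).card = n →
    ∑ v ∈ V.filter (fun v => Imb V G v ≠ 0), ‖Imb V G v‖ ≤ I →
    (V.filter (fun v => Imb V G v = 0)).card ≤ F n I := by
  choose N hN using H.MP_b48dd4_gt.frame2
  refine ⟨fun n I => N ⌊2 * I⌋₊ n, fun n I V G h hn hI => ?_⟩
  refine hN _ _ V _ G.Adj (fun a b => G.adj_symm) (fun a => G.irrefl) (Finset.filter_subset _ _)
    (fun v hv => (Finset.mem_filter.1 hv).2)
    (fun v hv => h.deg3 v (Finset.mem_filter.1 hv).1 (Finset.mem_filter.1 hv).2) ?_ ?_ ?_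
  · intro p hp
    refine Nat.le_floor ((H.MP_b48dd4_gt.deg_le V G.Adj (fun a b => G.adj_symm) (fun a => G.irrefl)
      hp).trans (mul_le_mul_of_nonneg_left (le_trans (le_of_eq ?_) hI) (by norm_num)))
    exact (Finset.sum_filter_of_ne fun v _ hv => norm_ne_zero_iff.1 hv).symm
  · intro v _ w _ w' _ h1 h2 e
    by_contra hne
    rcases H.MP_b48dd4_gt.dir_inj h1.ne' h2.ne' e with q | q
    · exact (h.meet v w v w' h1 h2 (fun hh => hh.elim (fun a => hne a.2) fun a => h2.ne a.1) w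
        ⟨right_mem_segment _ _ _, q⟩).2.elim h1.ne' hne
    · exact (h.meet v w v w' h1 h2 (fun hh => hh.elim (fun a => hne a.2) fun a => h2.ne a.1) w'
        ⟨q, right_mem_segment _ _ _⟩).1.elim h2.ne' (Ne.symm hne)
  · rw [← hn, ← Finset.filter_not]

end Pool.Agent.Results.MP_b48dd4_gt.Gromov
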